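import Pool.Agent.Helper50.EX.PRP

/-!
# EX, package ChP: the inertia groups on the (projective) charts
-/

set_option autoImplicit false
set_option linter.unusedSectionVars false

namespace Pool.Agent.Helper68.EXW

open Finset Pool.Agent.W559.Mg Cardinal Pool.Agent.Helper46.AQ Pool.Agent.Helper49.PN
  Pool.Agent.Helper12.PN Pool.Agent.Helper49 Pool.Agent.Helper50.EX Pool.Agent.Helper50.EX.P

/-- the iterated differences of a monomial -/
lemma df_moP {k K : Type} [Field k] [Field K] [Algebra k K] [DecidableEq K] {G : Type} [Group G]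
    (ρ : G →* (K ≃ₐ[k] K)) (L : Type) [AddCommGroup L] (τ : G) (l : L) (m : ℕ) (a : K) :
    (df (fun g => PQ.ga ρ L g) τ)^[m] (mo l a) = mo l ((fun z => ρ τ z - z)^[m] a) := by
  induction m with
  | zero => rfl
  | succ m ih =>
    rw [Function.iterate_succ_apply', Function.iterate_succ_apply', ih]
    unfold df
    rw [PQ.ga_mo, ← mo_sub]

lemma smul_moP {k K : Type} [Field k] [Field K] [Algebra k K] (L : Type) [AddCommGroup L] (l : L)
    (c : k) (a : K) : c • (mo l a : ML K L) = mo l (c • a) := by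
  unfold mo
  exact AddMonoidAlgebra.smul_single _ _ _

theorem chP (hPR : S_PRP2) (hGN : S_GNP) (hA1 : S_AL1) (hA2 : S_AL2) (hA3 : S_AL3)
    (hA4 : S_AL4) : S_ChP := by
  classical
  intro p _ k K _ _ _ _ _ G _ _ ρ B Φ ι _ _ A B' Ex N L _ dg _ n hb hS hcmp hinj D Q hQ hexp
  obtain ⟨V, hV⟩ := PQ.exists_cen (dg := dg) hS.pc D Q
  obtain ⟨e, he1, he2⟩ := hS.en _ (PQ.vK k L V.valuation) hV.pos
  have he : PQ.EnV B Φ A B' N (PQ.vK k L V.valuation) e := ⟨hV.pos, he1, he2⟩
  set ρ' := PQ.rC hb hS.pc D dg with hρ'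
  have hinr : ∀ g, (∀ b, ρ' g b - b ∈ Q) → PQ.Inr ρ (PQ.CC dg hS.pc D) V.valuation g := by
    intro g hg f hf
    exact (hV.lt _).2 (hg ⟨f, hf⟩)
  set I := inr ρ' Q with hIdef
  have hI : ∀ g, g ∈ I ↔ ∀ b, ρ' g b - b ∈ Q := fun g => Iff.rfl
  have hPG : IsPGroup p I := by
    rintro ⟨g, hg⟩
    obtain ⟨r, hr⟩ := PQ.exists_pow_eq_one (p := p) hb (hV.inr hb hS he (hinr g ((hI g).1 hg)))
    refine ⟨r, Subtype.ext ?_⟩
    exact hinj _ hr
  refine ⟨hPG, ?_⟩
  obtain ⟨τ, hτI, hτ⟩ := hexp hPG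
  choose! al hal using hτ
  have hone : (1 : PQ.CC dg hS.pc D) ∉ Q := fun h => hQ.ne_top ((Ideal.eq_top_iff_one Q).2 h)
  -- elements with the same parameter
  have halinj : ∀ g ∈ I, ∀ h ∈ I, al g = al h → g = h := by
    intro g hg h hh hgh
    have h1 : ρ (g⁻¹ * h) = 1 := by
      refine PQ.eq_one_of_fix hb fun s hs => ?_
      have h2 : ρ g s = ρ h s := by rw [hal g hg s hs, hal h hh s hs, hgh]
      rw [map_mul, AlgEquiv.mul_apply, ← h2, ← AlgEquiv.mul_apply, ← map_mul, inv_mul_cancel,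
        map_one, AlgEquiv.one_apply]
    have h2 := hinj _ h1
    rw [inv_mul_eq_one] at h2
    exact h2
  by_cases hτ1 : ρ τ = 1
  · -- the inertia group is trivial
    have htriv : ∀ g ∈ I, g = 1 := by
      intro g hg
      refine hinj g (PQ.eq_one_of_fix hb fun s hs => ?_)
      rw [hal g hg s hs]
      obtain ⟨p', hp'⟩ : ∃ p', p = p' + 1 := ⟨p - 1, by have := (Fact.out : p.Prime).pos; omega⟩
      rw [hp', Finset.sum_range_succ']
      have h3 : ∀ m : ℕ, (fun z => ρ τ z - z)^[m + 1] s = 0 := by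
        intro m
        rw [Function.iterate_succ_apply']
        simp only [hτ1]
        simp
      simp only [h3, smul_zero, Finset.sum_const_zero, zero_add, Function.iterate_zero, id]
      simp [bn]
    refine ⟨fun _ => 0, 0, 1, Polynomial.X, fun g _ => Q.zero_mem, fun g hg h hh _ => ?_, ?_,
      hone, fun g hg => ?_, fun c => ⟨1, hone, Polynomial.C c, fun g hg => ?_⟩⟩
    · rw [htriv g hg, htriv h hh]
    · rw [Polynomial.coeff_X_one]
      exact hone
    · simp
    · rw [htriv g hg, map_one]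
      simp
  · obtain ⟨X, hXQ, hX0, hXu, hXf, hpr, j0, hj0, w, hw, hw2⟩ :=
      hPR k K G ρ B Φ ι A B' Ex N L dg n hb hS D (FractionRing (ML K L)) _ V.valuation Q e hcmp hV
        he τ (hinr τ ((hI τ).1 hτI)) hτ1
    obtain ⟨hg1, hg2⟩ := hGN k K G ρ B Φ ι A B' Ex N L dg n hb hS D (FractionRing (ML K L)) _
      V.valuation Q e hV he
    let σ : G → ML K L →ₐ[k] ML K L := fun g => PQ.ga ρ L g
    have hLo : Lo (PQ.CC dg hS.pc D) Q σ I τ X :=
      { prime := hQ
        one := fun y => PQ.ga_one y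
        mul := fun g h y => PQ.ga_mul g h y
        st := fun g c hc => PQ.ga_mem_CC hb hS.pc g hc
        ine := fun g hg c => ⟨ρ' g c - c, hg c, rfl⟩
        XQ := hXQ
        X0 := hX0
        fX := hXf
        tau := hτI
        pr := hpr }
    have hform : ∀ j < Φ.card, ∀ g ∈ I, σ g (PQ.sh dg N e j) =
        ∑ m ∈ range p, bn (al g) m • (df σ τ)^[m] (PQ.sh dg N e j) := by
      intro j hj g hg
      have h1 : e j ∈ Φ := he.en.mem hj
      unfold PQ.sh
      change PQ.ga ρ L g (mo _ _) = _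
      rw [PQ.ga_mo, hal g hg _ h1]
      have h2 : ∀ m ∈ range p, bn (al g) m • (df σ τ)^[m] (mo (dg.symm (PQ.vz (N j))) (e j)) =
          mo (dg.symm (PQ.vz (N j))) (bn (al g) m • (fun z => ρ τ z - z)^[m] (e j)) := by
        intro m _
        rw [← smul_moP, ← df_moP]
      rw [Finset.sum_congr rfl h2]
      exact mo_sum _ _ _
    have hxQ : ∀ g ∈ I, al g • X ∈ Q := by
      intro g _
      rw [Algebra.smul_def]
      exact Q.mul_mem_left _ hXQ
    -- the subalgebra of the interpolated elements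
    obtain ⟨R, hR⟩ := hA3 k (ML K L) G (PQ.CC dg hS.pc D) Q σ I (fun g => al g • X)
    have hshR : ∀ j < Φ.card, PQ.sh dg N e j ∈ R := by
      intro j hj
      rw [hR]
      obtain ⟨u, hu⟩ := hXu
      obtain ⟨t, ht, P, hP, -⟩ := hA1 p k (ML K L) G (PQ.CC dg hS.pc D) Q σ I τ X hLo al
        (PQ.sh dg N e j) ((u⁻¹ : (ML K L)ˣ) * (σ τ (PQ.sh dg N e j) - PQ.sh dg N e j)) (hg1 j hj)
        (hform j hj) (by rw [← hu, ← mul_assoc, Units.mul_inv, one_mul])
      exact ⟨t, ht, P, hP⟩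
    have hCR : PQ.CC dg hS.pc D ≤ R := by
      refine hg2 R (fun i => ?_) hshR fun y z hy hyz hyu => ?_
      · rw [hR]
        refine ⟨1, hone, Polynomial.C ⟨PQ.xz K dg (Pi.single i 1), PQ.xz_mem_CC hS.pc i⟩, fun g _ => ?_⟩
        rw [Polynomial.eval_C]
        change PQ.xz K dg (Pi.single i 1) = 1 * PQ.ga ρ L g (PQ.xz K dg (Pi.single i 1))
        rw [one_mul, PQ.ga_xz]
      · rw [hR] at hy ⊢
        exact hA2 k (ML K L) G (PQ.CC dg hS.pc D) Q σ I (fun y => PQ.ga_one y) (fun g => al g • X) hxQ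
          y z hy hyz hyu
    exact hA4 p k (ML K L) G (PQ.CC dg hS.pc D) Q σ I τ X hLo al (PQ.sh dg N e j0) w (hg1 j0 hj0)
      (hform j0 hj0) hw hw2 halinj (fun c => (hR _).1 (hCR c.2)) ρ' fun g c => rfl

end Pool.Agent.Helper68.EXW
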