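import Pool.Agent.Helper46.L.Y824.G4.Step
import Pool.Agent.Helper50.EX.Stm

/-!
# EX, package DESC: the invariants of the group are regular
-/

set_option autoImplicit false
set_option linter.unusedSectionVars false

namespace Pool.Agent.Helper68.EXW

open Pool.Agent.Y824.G4 (rmul rone rinv PG PG_map PG_coeff step)
open Pool.Agent.Helper50.EX
open Polynomial Finset IsLocalRing

/-- DESC -/
theorem dESC (hS : S_SEP) (hL : S_LT) : S_DESC := by
  classical
  intro B _ _ _ G _ _ ρ p _ _ A _ _ j hj hfix hQ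
  let _ : Fintype G := Fintype.ofFinite _
  rw [isRegularRing_iff]
  intro q hq
  algebraize [j]
  have hint : Algebra.IsIntegral A B := by
    refine ⟨fun b => ?_⟩
    have hl : PG ρ b ∈ lifts j := by
      rw [lifts_iff_coeff_lifts]
      intro n
      exact (hfix _).1 fun g => PG_coeff ρ b n g
    obtain ⟨PA, h1, _, h2⟩ := lifts_and_degree_eq_and_monic hl (by
      unfold PG
      exact monic_prod_of_monic _ _ fun _ _ => monic_X_sub_C _)
    refine ⟨PA, h2, ?_⟩
    change eval₂ j b PA = 0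
    rw [← eval_map, h1]
    unfold PG
    rw [eval_prod]
    refine Finset.prod_eq_zero (mem_univ (1 : G)) ?_
    rw [rone]
    simp
  obtain ⟨Q, -, hQp, hQq⟩ := Ideal.exists_ideal_over_prime_of_isIntegral q (⊥ : Ideal B) (by
    intro x hx
    rw [Ideal.mem_comap, Ideal.mem_bot] at hx
    have h1 : x = 0 := hj (by rw [map_zero]; exact hx)
    rw [h1]
    exact q.zero_mem)
  have hQq' : q = Q.comap j := hQq.symm
  obtain ⟨hpg, hmon⟩ := hQ Q hQp
  obtain ⟨y, hy1, hy2⟩ := hS B G ρ Q p hpg
  let _ : Fintype (G ⧸ inr ρ Q) := Fintype.ofFinite _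
  let CI : Subring B :=
    { carrier := {x | ∀ h ∈ inr ρ Q, ρ h x = x}
      zero_mem' := fun h _ => map_zero _
      one_mem' := fun h _ => map_one _
      add_mem' := fun {x y} hx hy h hh => by rw [map_add, hx h hh, hy h hh]
      mul_mem' := fun {x y} hx hy h hh => by rw [map_mul, hx h hh, hy h hh]
      neg_mem' := fun {x} hx h hh => by rw [map_neg, hx h hh] }
  have hmem : ∀ x : B, x ∈ CI ↔ ∀ h ∈ inr ρ Q, ρ h x = x := fun x => Iff.rfl
  have hC : ∀ b, (∀ h ∈ inr ρ Q, ρ h b = b) ↔ ∃ c : CI, CI.subtype c = b := by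
    intro b
    constructor
    · intro h
      exact ⟨⟨b, h⟩, rfl⟩
    · rintro ⟨c, rfl⟩
      exact c.2
  let jA : A →+* CI := j.codRestrict CI fun a => (hmem _).2 fun h _ => (hfix _).2 ⟨a, rfl⟩ h
  have hjA : ∀ a, CI.subtype (jA a) = j a := fun a => rfl
  have hregQ : IsRegularLocalRing (Localization.AtPrime Q) :=
    (isRegularRing_iff (R := B)).1 inferInstance Q
  have hreg : IsRegularLocalRing (Localization.AtPrime (Q.comap CI.subtype)) :=
    hL B G ρ Q (inr ρ Q) le_rfl hmon CI CI.subtype Subtype.val_injective hC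
      (Q.comap CI.subtype) rfl
  refine step ρ (inr ρ Q) CI.subtype Subtype.val_injective hC jA (fun a a' h => hj ?_) hfix Q
    (Q.comap CI.subtype) rfl q ?_ (⟨y, (hmem _).2 hy1⟩ : CI) hy2
  · rw [← hjA, ← hjA, h]
  · rw [hQq', Ideal.comap_comap]
    rfl

end Pool.Agent.Helper68.EXW
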