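import Pool.Agent.Helper46.L.Y824.G4.Sep
import Pool.Agent.Helper50.EX.Stm

/-!
# EX, package SEP: an element fixed by the inertia group (a `p`-group) which separates the other elements
-/

set_option autoImplicit false
set_option linter.unusedSectionVars false

namespace Pool.Agent.Helper68.EXW

open Pool.Agent.Y824.G4 (rmul rone rinv iner mem_iner iner_stab stab_of_inv stab_mul PG PG_map PG_coeff)
open Finset Polynomial
open scoped Pointwise

section

variable {B : Type} [CommRing B] {G : Type} [Group G] {ρ : G →* (B ≃+* B)} {Q : Ideal B}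

variable {p : ℕ} [Fact p.Prime] [CharP B p]

variable [Finite G] [Q.IsPrime]

/-- a map to the invariants of the inertia group -/
theorem exists_T (hc : IsPGroup p (iner ρ Q)) :
    ∃ T : B → B, (∀ b, ∀ h ∈ iner ρ Q, ρ h (T b) = T b) ∧
      (∀ g, (∀ x ∈ Q, ρ g x ∈ Q) → ∀ b, ρ g (T b) - T b ∈ Q → ρ g b - b ∈ Q) ∧
      (∀ b, T b ∈ Q → b ∈ Q) ∧
      ∀ (J : Ideal B) (b : B), (∀ h ∈ iner ρ Q, ρ h b ∈ J) → T b ∈ J := by
  classical
  let _ : Fintype (iner ρ Q) := Fintype.ofFinite _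
  have hQ : Q.IsPrime := inferInstance
  obtain ⟨r, hr⟩ := IsPGroup.iff_card.1 hc
  have hn' : Fintype.card (iner ρ Q) = p ^ r := by rw [← hr, Nat.card_eq_fintype_card]
  have hN : ∀ b, (∏ h : iner ρ Q, ρ h b) - b ^ (p ^ r) ∈ Q := by
    intro b
    rw [← Ideal.Quotient.eq, map_prod, map_pow, ← hn', ← Finset.card_univ,
      Finset.prod_congr rfl (fun h _ => (Ideal.Quotient.eq).2 (h.2 b)), Finset.prod_const]
  refine ⟨fun b => ∏ h : iner ρ Q, ρ h b, ?_, ?_, ?_, ?_⟩
  · intro b k hk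
    simp only
    rw [map_prod]
    refine Fintype.prod_equiv (Equiv.mulLeft (⟨k, hk⟩ : iner ρ Q)) _ _ fun h => ?_
    rw [← rmul]
    rfl
  · intro g hg b h1
    have h2 : (ρ g b) ^ (p ^ r) - b ^ (p ^ r) ∈ Q := by
      have h3 := hg _ (hN b)
      have h4 := hN b
      rw [map_sub, map_pow] at h3
      have h5 : (ρ g b) ^ (p ^ r) - b ^ (p ^ r) =
          (ρ g (∏ h : iner ρ Q, ρ h b) - ∏ h : iner ρ Q, ρ h b) -
          (ρ g (∏ h : iner ρ Q, ρ h b) - (ρ g b) ^ (p ^ r)) +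
          ((∏ h : iner ρ Q, ρ h b) - b ^ (p ^ r)) := by ring
      rw [h5]
      exact Q.add_mem (Q.sub_mem h1 h3) h4
    refine hQ.mem_of_pow_mem (p ^ r) ?_
    rw [sub_pow_char_pow]
    exact h2
  · intro b hb
    have h1 := Q.sub_mem hb (hN b)
    simp only [sub_sub_cancel] at h1
    exact hQ.mem_of_pow_mem _ h1
  · intro J b hb
    have h1 : (univ : Finset (iner ρ Q)).Nonempty := univ_nonempty
    obtain ⟨k, hk⟩ := h1
    simp only
    rw [← Finset.mul_prod_erase _ _ hk]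
    exact J.mul_mem_right _ (hb k k.2)

/-- the invariants of the inertia group separate the other elements -/
theorem exists_c (hc : IsPGroup p (iner ρ Q)) {g : G}
    (hg : g ∉ iner ρ Q) : ∃ c, (∀ h ∈ iner ρ Q, ρ h c = c) ∧ ρ g c - c ∉ Q := by
  classical
  let _ : Fintype (iner ρ Q) := Fintype.ofFinite _
  have hQ : Q.IsPrime := inferInstance
  by_contra hcon
  push Not at hcon
  obtain ⟨T, T1, T2, _, _⟩ := exists_T hc
  apply hg
  intro b
  refine T2 g ?_ b (hcon _ (T1 b))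
  -- `g` fixes `Q`
  have h1 : (Q : Set B) ⊆ ⋃ h ∈ ((univ : Finset (iner ρ Q)) : Set (iner ρ Q)),
      ((Q.comap ((ρ (g * h) : B ≃+* B) : B →+* B) : Ideal B) : Set B) := by
    intro x hx
    have h2 : (∏ h : iner ρ Q, ρ h x) ∈ Q := by
      have h3 : (univ : Finset (iner ρ Q)).Nonempty := univ_nonempty
      obtain ⟨k, hk⟩ := h3
      rw [← Finset.mul_prod_erase _ _ hk]
      exact Q.mul_mem_right _ (iner_stab k.2 hx)
    have h3 := hcon (∏ h : iner ρ Q, ρ h x) (by
      intro k hk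
      rw [map_prod]
      refine Fintype.prod_equiv (Equiv.mulLeft (⟨k, hk⟩ : iner ρ Q)) _ _ fun h => ?_
      rw [← rmul]
      rfl)
    have h4 : ρ g (∏ h : iner ρ Q, ρ h x) ∈ Q := by
      have := Q.add_mem h3 h2
      rwa [sub_add_cancel] at this
    rw [map_prod, hQ.prod_mem_iff] at h4
    obtain ⟨h, _, h5⟩ := h4
    rw [Set.mem_iUnion₂]
    refine ⟨h, mem_coe.2 (mem_univ h), ?_⟩
    rw [SetLike.mem_coe, Ideal.mem_comap]
    change ρ (g * h) x ∈ Q
    rw [rmul]
    exact h5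
  rw [Ideal.subset_union_prime 1 1 (fun i _ _ _ => inferInstance)] at h1
  obtain ⟨h, _, h2⟩ := h1
  exact stab_mul h.2 fun x hx => h2 hx

/-- the case of an infinite field of invariants -/
theorem sep_infinite (hc : IsPGroup p (iner ρ Q))
    (hinf : (Ideal.Quotient.mk Q '' {a | ∀ g, ρ g a = a}).Infinite) :
    ∃ y, (∀ h ∈ iner ρ Q, ρ h y = y) ∧ ∀ g, g ∉ iner ρ Q → ρ g y - y ∉ Q := by
  classical
  let _ : Fintype G := Fintype.ofFinite _
  have hQ : Q.IsPrime := inferInstance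
  by_contra hcon
  push Not at hcon
  let BI : AddSubgroup B :=
    { carrier := {y | ∀ h ∈ iner ρ Q, ρ h y = y}
      zero_mem' := fun h _ => map_zero _
      add_mem' := fun {x y} hx hy h hh => by rw [map_add, hx h hh, hy h hh]
      neg_mem' := fun {x} hx h hh => by rw [map_neg, hx h hh] }
  let H : G → AddSubgroup BI := fun g =>
    { carrier := {y | ρ g (y : B) - y ∈ Q}
      zero_mem' := by
        change ρ g ((0 : BI) : B) - ((0 : BI) : B) ∈ Q
        rw [AddSubgroup.coe_zero, map_zero, sub_zero]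
        exact Q.zero_mem
      add_mem' := fun {x y} hx hy => by
        change ρ g ((x + y : BI) : B) - ((x + y : BI) : B) ∈ Q
        have h1 : ρ g ((x + y : BI) : B) - ((x + y : BI) : B) =
            (ρ g (x : B) - x) + (ρ g (y : B) - y) := by
          rw [AddSubgroup.coe_add, map_add]
          ring
        rw [h1]
        exact Q.add_mem hx hy
      neg_mem' := fun {x} hx => by
        change ρ g ((-x : BI) : B) - ((-x : BI) : B) ∈ Q
        have h1 : ρ g ((-x : BI) : B) - ((-x : BI) : B) = -(ρ g (x : B) - x) := by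
          rw [AddSubgroup.coe_neg, map_neg]
          ring
        rw [h1]
        exact Q.neg_mem hx }
  have hcov : ⋃ g ∈ (univ.filter fun g => g ∉ iner ρ Q), (0 : BI) +ᵥ (H g : Set BI) = Set.univ := by
    rw [Set.eq_univ_iff_forall]
    intro y
    obtain ⟨g, hg, h1⟩ := hcon y.1 y.2
    rw [Set.mem_iUnion₂]
    refine ⟨g, mem_filter.2 ⟨mem_univ g, hg⟩, ?_⟩
    rw [zero_vadd]
    exact h1
  obtain ⟨k, hk, hfi⟩ := AddSubgroup.exists_finiteIndex_of_leftCoset_cover (g := fun _ => (0 : BI))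
    hcov
  have hk' := (mem_filter.1 hk).2
  obtain ⟨c, hc1, hc2⟩ := exists_c hc hk'
  have hfin : Finite (BI ⧸ H k) := AddSubgroup.finite_quotient_of_finiteIndex
  apply hinf
  have hrep : ∀ x : (Ideal.Quotient.mk Q '' {a | ∀ g, ρ g a = a} : Set (B ⧸ Q)), ∃ a : B,
      (∀ g, ρ g a = a) ∧ Ideal.Quotient.mk Q a = x.1 := fun x => x.2
  choose a ha1 ha2 using hrep
  have hmem : ∀ x, a x * c ∈ BI := fun x h hh => by
    rw [map_mul, ha1, hc1 h hh]
  exact Finite.of_injective (fun x => (QuotientAddGroup.mk (⟨a x * c, hmem x⟩ : BI) : BI ⧸ H k))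
    fun x y hxy => by
      rw [QuotientAddGroup.eq] at hxy
      have h1 : ρ k (-(a x * c) + a y * c) - (-(a x * c) + a y * c) ∈ Q := hxy
      have h2 : (a y - a x) * (ρ k c - c) ∈ Q := by
        have h3 : (a y - a x) * (ρ k c - c) =
            ρ k (-(a x * c) + a y * c) - (-(a x * c) + a y * c) := by
          rw [map_add, map_neg, map_mul, map_mul, ha1, ha1]
          ring
        rw [h3]
        exact h1
      have h3 := (hQ.mem_or_mem h2).resolve_right hc2
      apply Subtype.ext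
      rw [← ha2, ← ha2]
      exact ((Ideal.Quotient.eq).2 h3).symm

/-- the case of a finite field of invariants -/
theorem sep_finite (hc : IsPGroup p (iner ρ Q))
    (hfin : (Ideal.Quotient.mk Q '' {a | ∀ g, ρ g a = a}).Finite) :
    ∃ y, (∀ h ∈ iner ρ Q, ρ h y = y) ∧ ∀ g, g ∉ iner ρ Q → ρ g y - y ∉ Q := by
  classical
  let _ : Fintype G := Fintype.ofFinite _
  have hQ : Q.IsPrime := inferInstance
  have hdom : IsDomain (B ⧸ Q) := Ideal.Quotient.isDomain Q
  -- the quotient is finite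
  have hBQ : Finite (B ⧸ Q) := by
    rw [← Set.finite_univ_iff]
    refine (bUnion_roots_finite (RingHom.id (B ⧸ Q)) (Fintype.card G) hfin).subset ?_
    intro x _
    obtain ⟨b, rfl⟩ := Ideal.Quotient.mk_surjective x
    rw [Set.mem_iUnion₂]
    refine ⟨(PG ρ b).map (Ideal.Quotient.mk Q), ⟨?_, fun i => ?_⟩, ?_⟩
    · refine natDegree_map_le.trans ?_
      unfold PG
      refine (natDegree_prod_le _ _).trans ?_
      refine (Finset.sum_le_sum fun g _ => (natDegree_X_sub_C_le _)).trans ?_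
      rw [Finset.sum_const, Finset.card_univ, smul_eq_mul, mul_one]
    · rw [coeff_map]
      exact ⟨_, fun g => PG_coeff ρ b i g, rfl⟩
    · have hm : ((PG ρ b).map (Ideal.Quotient.mk Q)).Monic :=
        (monic_prod_of_monic _ _ fun _ _ => monic_X_sub_C _).map _
      rw [Polynomial.map_id, mem_coe, Multiset.mem_toFinset, mem_roots hm.ne_zero, IsRoot.def,
        eval_map, eval₂_hom]
      have h1 : (PG ρ b).eval b = 0 := by
        unfold PG
        rw [eval_prod]
        refine Finset.prod_eq_zero (mem_univ (1 : G)) ?_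
        rw [rone]
        simp
      rw [h1, map_zero]
  obtain ⟨θ, hθ⟩ := IsCyclic.exists_generator (α := (B ⧸ Q)ˣ)
  obtain ⟨T, T1, T2, T3, T4⟩ := exists_T hc
  -- an element in the other conjugates of `Q`
  have he : ∀ g : G, ∃ e : B, ¬ (∀ x ∈ Q, ρ g x ∈ Q) → ρ g e ∈ Q ∧ e ∉ Q := by
    intro g
    by_cases hg : ∀ x ∈ Q, ρ g x ∈ Q
    · exact ⟨0, fun h => absurd hg h⟩
    · have h1 : ¬ ∀ x, ρ g x ∈ Q → x ∈ Q := fun h => hg (stab_of_inv h)
      push Not at h1
      obtain ⟨e, he1, he2⟩ := h1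
      exact ⟨e, fun _ => ⟨he1, he2⟩⟩
  choose e he using he
  set E : B := ∏ g ∈ univ.filter (fun g : G => ¬ ∀ x ∈ Q, ρ g x ∈ Q), e g with hE
  have hE1 : E ∉ Q := by
    rw [hE, hQ.prod_mem_iff]
    rintro ⟨g, hg, h1⟩
    exact (he g (mem_filter.1 hg).2).2 h1
  have hE2 : ∀ g : G, (¬ ∀ x ∈ Q, ρ g x ∈ Q) → ρ g E ∈ Q := by
    intro g hg
    rw [hE, map_prod, hQ.prod_mem_iff]
    exact ⟨g, mem_filter.2 ⟨mem_univ g, hg⟩, (he g hg).1⟩
  have hfield : IsField (B ⧸ Q) := Finite.isField_of_domain (B ⧸ Q)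
  obtain ⟨t0, ht0⟩ := hfield.mul_inv_cancel
    (a := Ideal.Quotient.mk Q E) (fun h => hE1 (Ideal.Quotient.eq_zero_iff_mem.1 h))
  obtain ⟨t, ht⟩ := Ideal.Quotient.mk_surjective (t0 * (θ : B ⧸ Q))
  set b : B := E * t with hb
  have hbθ : Ideal.Quotient.mk Q b = θ := by
    rw [hb, map_mul, ht, ← mul_assoc, ht0, one_mul]
  have hbg : ∀ g : G, (¬ ∀ x ∈ Q, ρ g x ∈ Q) → ρ g b ∈ Q := by
    intro g hg
    rw [hb, map_mul]
    exact Q.mul_mem_right _ (hE2 g hg)
  have hb0 : b ∉ Q := by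
    intro h
    rw [← Ideal.Quotient.eq_zero_iff_mem, hbθ] at h
    exact θ.ne_zero h
  refine ⟨T b, T1 b, fun g hg hcon => ?_⟩
  by_cases hst : ∀ x ∈ Q, ρ g x ∈ Q
  · have h1 := T2 g hst b hcon
    apply hg
    intro x
    by_cases hx : x ∈ Q
    · exact Q.sub_mem (hst x hx) hx
    · have hx' : Ideal.Quotient.mk Q x ≠ 0 := fun h => hx (Ideal.Quotient.eq_zero_iff_mem.1 h)
      obtain ⟨y, hy⟩ := hfield.mul_inv_cancel hx'
      obtain ⟨n, hn⟩ := (mem_powers_iff_mem_zpowers.2 (hθ (Units.mkOfMulEqOne _ _ hy)))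
      have h2 : Ideal.Quotient.mk Q x = Ideal.Quotient.mk Q (b ^ n) := by
        rw [map_pow, hbθ]
        have h3 := congrArg (fun u : (B ⧸ Q)ˣ => (u : B ⧸ Q)) hn
        simp only [Units.val_pow_eq_pow_val] at h3
        exact h3.symm
      have h3 : x - b ^ n ∈ Q := (Ideal.Quotient.eq).1 h2
      have h4 : ρ g (b ^ n) - b ^ n ∈ Q := by
        rw [← Ideal.Quotient.eq, map_pow, map_pow, map_pow, (Ideal.Quotient.eq).2 h1]
      have h5 : ρ g x - x = ρ g (x - b ^ n) + (ρ g (b ^ n) - b ^ n) - (x - b ^ n) := by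
        rw [map_sub]
        ring
      rw [h5]
      exact Q.sub_mem (Q.add_mem (hst _ h3) h4) h3
  · have h1 : T b ∈ Q.comap ((ρ g : B ≃+* B) : B →+* B) := T4 _ b fun h hh => by
      rw [Ideal.mem_comap]
      change ρ g (ρ h b) ∈ Q
      rw [← rmul]
      exact hbg _ fun h2 => hst (stab_mul hh h2)
    have h2 : ρ g (T b) ∈ Q := h1
    have h3 := Q.sub_mem h2 hcon
    rw [sub_sub_cancel] at h3
    exact hb0 (T3 b h3)

/-- an element fixed by the inertia group which separates the other elements -/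
theorem exists_sep (hc : IsPGroup p (iner ρ Q)) :
    ∃ y, (∀ h ∈ iner ρ Q, ρ h y = y) ∧ ∀ g, g ∉ iner ρ Q → ρ g y - y ∉ Q := by
  by_cases h : (Ideal.Quotient.mk Q '' {a | ∀ g, ρ g a = a}).Finite
  · exact sep_finite hc h
  · exact sep_infinite hc h

end

/-- SEP -/
theorem sEP : Pool.Agent.Helper50.EX.S_SEP := by
  intro B _ G _ _ ρ Q _ p _ _ h
  exact exists_sep (ρ := ρ) (Q := Q) (p := p) h

end Pool.Agent.Helper68.EXW
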